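import Pool.Agent.R246.SK.Defs

/-! SK-BD: bound of the difference of the quadratic forms. -/

open scoped ContDiff ComplexConjugate
open Filter MeasureTheory

namespace Pool.Agent.R374.SK

open Pool.Agent.R246.SK

theorem bd_cs {a u : ℝ → ℝ} (ha : Continuous a) (hu : Continuous u) (hpos : ∀ t, 0 < a t) :
    (∫ t in (0 : ℝ)..(2 * Real.pi), u t) ^ 2 ≤
      (∫ t in (0 : ℝ)..(2 * Real.pi), u t ^ 2 / a t) * ∫ t in (0 : ℝ)..(2 * Real.pi), a t := by
  have hpi : (0:ℝ) < 2 * Real.pi := by positivity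
  have hA : 0 < ∫ t in (0 : ℝ)..(2 * Real.pi), a t :=
    intervalIntegral.intervalIntegral_pos_of_pos (ha.intervalIntegrable _ _) hpos hpi
  set A := ∫ t in (0 : ℝ)..(2 * Real.pi), a t with hAd
  set F := ∫ t in (0 : ℝ)..(2 * Real.pi), u t with hFd
  set Q := ∫ t in (0 : ℝ)..(2 * Real.pi), u t ^ 2 / a t with hQd
  have hq : Continuous fun t => u t ^ 2 / a t := (hu.pow 2).div ha fun t => (hpos t).ne'
  have key : ∀ x : ℝ, 0 ≤ Q - 2 * x * F + x ^ 2 * A := by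
    intro x
    have h1 : 0 ≤ ∫ t in (0 : ℝ)..(2 * Real.pi), (u t ^ 2 / a t - 2 * x * u t + x ^ 2 * a t) := by
      refine intervalIntegral.integral_nonneg hpi.le fun t _ => ?_
      have : u t ^ 2 / a t - 2 * x * u t + x ^ 2 * a t = (u t - x * a t) ^ 2 / a t := by
        field_simp [(hpos t).ne']
        ring
      rw [this]
      exact div_nonneg (sq_nonneg _) (hpos t).le
    rw [intervalIntegral.integral_add, intervalIntegral.integral_sub,
      intervalIntegral.integral_const_mul, intervalIntegral.integral_const_mul] at h1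
    · exact h1
    · exact hq.intervalIntegrable _ _
    · exact (continuous_const.mul hu).intervalIntegrable _ _
    · exact (hq.sub (continuous_const.mul hu)).intervalIntegrable _ _
    · exact (continuous_const.mul ha).intervalIntegrable _ _
  have h2 := key (F / A)
  have h3 : Q - 2 * (F / A) * F + (F / A) ^ 2 * A = Q - F ^ 2 / A := by
    field_simp
    ring
  rw [h3, sub_nonneg, div_le_iff₀ hA] at h2
  exact h2

theorem bd_ee (n : ℤ) (t : ℝ) : ‖ee n t‖ = 1 := by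
  unfold ee
  have : Complex.I * (n : ℂ) * (t : ℂ) = ((n * t : ℝ) : ℂ) * Complex.I := by push_cast; ring
  rw [this, Complex.norm_exp_ofReal_mul_I]

theorem bd_ip (a : ℝ → ℝ) (f : ℝ → ℂ) :
    (ip a f f).re = ∫ t in (0 : ℝ)..(2 * Real.pi), ‖f t‖ ^ 2 / a t := by
  have : ip a f f = ((∫ t in (0 : ℝ)..(2 * Real.pi), ‖f t‖ ^ 2 / a t : ℝ) : ℂ) := by
    unfold ip
    rw [← intervalIntegral.integral_ofReal]
    refine intervalIntegral.integral_congr fun t _ => ?_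
    rw [Complex.mul_conj, Complex.normSq_eq_norm_sq]
    push_cast
    rfl
  rw [this, Complex.ofReal_re]

theorem bd_fc {a : ℝ → ℝ} {f : ℝ → ℂ} (ha : PP a) (hf : SP f) (k : ℤ) :
    ‖fc f k‖ ^ 2 ≤ (1 / (2 * Real.pi)) ^ 2 * ((ip a f f).re *
      ∫ t in (0 : ℝ)..(2 * Real.pi), a t) := by
  have hpi : (0:ℝ) < 2 * Real.pi := by positivity
  have h1 : ‖fc f k‖ ≤ 1 / (2 * Real.pi) * ∫ t in (0 : ℝ)..(2 * Real.pi), ‖f t‖ := by
    unfold fc
    rw [norm_mul, Complex.norm_real, Real.norm_of_nonneg (by positivity)]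
    refine mul_le_mul_of_nonneg_left ?_ (by positivity)
    refine (intervalIntegral.norm_integral_le_integral_norm hpi.le).trans (le_of_eq ?_)
    refine intervalIntegral.integral_congr fun t _ => ?_
    change ‖f t * ee (-k) t‖ = ‖f t‖
    rw [norm_mul, bd_ee, mul_one]
  have h2 := bd_cs (a := a) (u := fun t => ‖f t‖) ha.1.continuous hf.1.continuous.norm ha.2.2
  rw [bd_ip]
  calc ‖fc f k‖ ^ 2 ≤ (1 / (2 * Real.pi) * ∫ t in (0 : ℝ)..(2 * Real.pi), ‖f t‖) ^ 2 :=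
        pow_le_pow_left₀ (norm_nonneg _) h1 2
    _ = (1 / (2 * Real.pi)) ^ 2 * (∫ t in (0 : ℝ)..(2 * Real.pi), ‖f t‖) ^ 2 := by ring
    _ ≤ _ := mul_le_mul_of_nonneg_left h2 (by positivity)

/-- **SK-BD** -/
theorem s_bd (h1 : S_TT) (h2 : S_KS) (h3 : S_LAM) : S_BD := by
  intro a ha
  have hpi : (0:ℝ) < 2 * Real.pi := by positivity
  have hsum : Summable fun p : ℤ × ℤ => ‖Kk a p.1 p.2‖ := by
    refine Summable.of_nonneg_of_le (fun _ => norm_nonneg _) (fun p => ?_) (h2 a ha)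
    have e1 : (1:ℝ) ≤ (1 + |(p.1 : ℝ)|) ^ 2 := one_le_pow₀ (by linarith [abs_nonneg (p.1 : ℝ)])
    have e2 : (1:ℝ) ≤ (1 + |(p.2 : ℝ)|) ^ 2 := one_le_pow₀ (by linarith [abs_nonneg (p.2 : ℝ)])
    have e3 : ‖Kk a p.1 p.2‖ ≤ ‖Kk a p.1 p.2‖ * (1 + |(p.1 : ℝ)|) ^ 2 :=
      le_mul_of_one_le_right (norm_nonneg _) e1
    exact e3.trans (le_mul_of_one_le_right (by positivity) e2)
  refine ⟨2 * Real.pi * ((∑' p : ℤ × ℤ, ‖Kk a p.1 p.2‖) * ((1 / (2 * Real.pi)) ^ 2 *
    ∫ t in (0 : ℝ)..(2 * Real.pi), a t)), fun f hf => ?_⟩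
  have hL := (h3 f hf).1
  have hac := ha.1.continuous
  have hLc : Continuous (Lam f) := hL.1.continuous
  have hdc : Continuous (deriv f) := hf.1.continuous_deriv (by simp)
  have hTT : TT a f f = (((∫ t in (0 : ℝ)..(2 * Real.pi), a t * ‖Lam f t‖ ^ 2) -
      ∫ t in (0 : ℝ)..(2 * Real.pi), a t * ‖deriv f t‖ ^ 2 : ℝ) : ℂ) := by
    have c1 : Continuous fun t => a t * ‖Lam f t‖ ^ 2 := hac.mul (hLc.norm.pow 2)
    have c2 : Continuous fun t => a t * ‖deriv f t‖ ^ 2 := hac.mul (hdc.norm.pow 2)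
    rw [← intervalIntegral.integral_sub (c1.intervalIntegrable _ _)
      (c2.intervalIntegrable _ _), ← intervalIntegral.integral_ofReal]
    unfold TT
    refine intervalIntegral.integral_congr fun t _ => ?_
    change (a t : ℂ) * (Lam f t * conj (Lam f t) - deriv f t * conj (deriv f t)) =
      ((a t * ‖Lam f t‖ ^ 2 - a t * ‖deriv f t‖ ^ 2 : ℝ) : ℂ)
    rw [Complex.mul_conj, Complex.mul_conj, Complex.normSq_eq_norm_sq, Complex.normSq_eq_norm_sq]
    push_cast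
    ring
  have hS := h1 a f f ha hf hf
  set B2 := (1 / (2 * Real.pi)) ^ 2 * ((ip a f f).re * ∫ t in (0 : ℝ)..(2 * Real.pi), a t) with hB
  have hterm : ∀ p : ℤ × ℤ, ‖Kk a p.1 p.2 * fc f p.2 * conj (fc f p.1)‖ ≤
      ‖Kk a p.1 p.2‖ * B2 := by
    intro p
    rw [norm_mul, norm_mul, RCLike.norm_conj, mul_assoc]
    refine mul_le_mul_of_nonneg_left ?_ (norm_nonneg _)
    have e1 := bd_fc ha hf p.1
    have e2 := bd_fc ha hf p.2
    rw [← hB] at e1 e2
    nlinarith [sq_nonneg (‖fc f p.2‖ - ‖fc f p.1‖)]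
  have hb : ‖((1 / (2 * Real.pi) : ℝ) : ℂ) * TT a f f‖ ≤
      (∑' p : ℤ × ℤ, ‖Kk a p.1 p.2‖) * B2 := by
    rw [← hS.tsum_eq, ← tsum_mul_right]
    exact tsum_of_norm_bounded (hsum.mul_right B2).hasSum hterm
  rw [hTT, ← Complex.ofReal_mul, Complex.norm_real, Real.norm_eq_abs, abs_mul,
    abs_of_pos (show (0:ℝ) < 1 / (2 * Real.pi) by positivity), div_mul_eq_mul_div, one_mul,
    div_le_iff₀ hpi] at hb
  refine hb.trans (le_of_eq ?_)
  rw [hB]
  ring

end Pool.Agent.R374.SK
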